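import Pool.Agent.helper51.VF.SpecB
import Pool.Agent.helper51.VF.Lib

/-!
# Project vf (MP_74cfa5_ag), row vf:RPF
-/

set_option autoImplicit false

namespace Pool.Agent.VF

open Pool.Agent.PC Pool.Agent.QS

universe u

theorem RPF (hLVQ : QS.LVQ_stmt.{u}) (hTEQ : QS.TEQ_stmt.{u}) (hGHF : GHF_stmt.{u})
    (hHOM : HOM_stmt.{u}) : RPF_stmt.{u} := by
  intro k R A F K _ _ _ _ _ _ _ _ _ _ _ _ _ _ _ _ _ _ _ _ _ _ _ _ _ _ _ _ _ _ n p hp _
    hFol hn hK S B ω μ g hω hg hμ hB m hm hUF hSm hC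
  have hmp : m.IsPrime := hm.isPrime
  obtain ⟨hint, hht, -, hrad⟩ := hHOM R A p hp.out.pos hFol.1
  obtain ⟨hIp, hIc⟩ := hrad S hB.1
  set I := (S.map (algebraMap R A)).radical with hIdef
  have hI1 : I.IsRadical := Ideal.radical_isRadical _
  have hIht : I.height = 1 := by
    rw [← hht I hIp, hIc, hB.2.1]
  have hI2 : ∀ Q ∈ I.minimalPrimes, Q.height = 1 := by
    intro Q hQ
    rw [Ideal.minimalPrimes_eq_subsingleton_self, Set.mem_singleton_iff] at hQ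
    rw [hQ, hIht]
  have hI3 : I ≤ m :=
    hmp.radical_le_iff.2 (Ideal.map_le_iff_le_comap.2 hSm)
  obtain ⟨t, ht0, htE, htL⟩ := hTEQ A K m hUF _ hI1 hI2 hI3
  refine ⟨t, ht0, htE, ?_⟩
  intro δ hδ D y T hT hDy Ψ hΨ
  have hg' : algebraMap F K g ≠ 0 := by
    rw [Ne, map_eq_zero_iff _ (algebraMap F K).injective]
    exact hg
  have hΨω : Ψ ω ≠ 0 := fun h => hω (hΨ.2.1 ω h)
  have hx : algebraMap F K g / Ψ ω ^ μ ≠ 0 := div_ne_zero hg' (pow_ne_zero _ hΨω)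
  have key : ∀ (Q : Ideal A) (v : K → ℤ), Q.IsPrime → Q.height = 1 → Q ≤ m → LocV Q v →
      0 ≤ v (algebraMap F K g / Ψ ω ^ μ) ∧
      (S ≤ Q.comap (algebraMap R A) → (μ : ℤ) ≤ v (algebraMap F K g / Ψ ω ^ μ)) ∧
      (S ≤ Q.comap (algebraMap R A) → (∃ q ∈ Q, ¬ LocI Q Q (δ (algebraMap A K q))) →
        (p * μ : ℤ) ≤ v (algebraMap F K g / Ψ ω ^ μ)) := by
    intro Q v hQ hQ1 hQm hv
    exact hGHF k R A F K n p hFol hn hK D y hDy δ T Ψ hT hΨ S B ω μ g hω hg hμ hB m hC Q v hQ hQ1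
      hQm hv (fun a => LB_mono hQm (hδ.1 a)) (hδ.2 Q hQ hQ1 hQm)
  refine ⟨?_, ?_⟩
  · refine htL _ μ hx ?_
    intro Q v hQ hQ1 hQm hv
    have h := key Q v hQ hQ1 hQm hv
    exact ⟨h.1, fun hIQ => h.2.1 (Ideal.map_le_iff_le_comap.1 (Ideal.le_radical.trans hIQ))⟩
  · intro hnt
    refine htL _ (p * μ) hx ?_
    intro Q v hQ hQ1 hQm hv
    have h := key Q v hQ hQ1 hQm hv
    refine ⟨h.1, fun hIQ => ?_⟩
    have hSQ : S ≤ Q.comap (algebraMap R A) :=
      Ideal.map_le_iff_le_comap.1 (Ideal.le_radical.trans hIQ)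
    push_cast
    refine h.2.2 hSQ ⟨t, hIQ htE.1, ?_⟩
    have hQI : Q = I := by
      by_contra hne
      have hlt : I < Q := lt_of_le_of_ne hIQ (fun h' => hne h'.symm)
      have h1 : I.height < Q.height := by
        haveI : I.FiniteHeight := ⟨Or.inr (by rw [hIht]; exact ENat.one_ne_top)⟩
        exact Ideal.height_strict_mono_of_isPrime hlt
      rw [hIht, hQ1] at h1
      exact lt_irrefl _ h1
    rw [hQI]
    intro hloc
    apply hnt
    obtain ⟨b, s, hs, hbs⟩ := hδ.1 t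
    obtain ⟨b', s', hs', hb', hbs'⟩ := hloc
    have hs0 : algebraMap A K s ≠ 0 := LB_ne hs
    have hs0' : algebraMap A K s' ≠ 0 := LB_ne hs'
    have heq : b * s' = b' * s := by
      apply IsFractionRing.injective A K
      rw [map_mul, map_mul]
      rw [hbs, div_eq_div_iff hs0 hs0'] at hbs'
      exact hbs'
    have hbI : b ∈ I := by
      have h1 : b * s' ∈ I := by
        rw [heq]
        exact I.mul_mem_right _ hb'
      exact (hIp.mem_or_mem h1).resolve_right hs'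
    obtain ⟨s2, hs2, hb2⟩ := htE.2 b hbI
    refine ⟨s2 * b, s2 * s, hmp.mul_notMem hs2 hs, hb2, ?_⟩
    have hs20 : algebraMap A K s2 ≠ 0 := LB_ne hs2
    rw [hbs, map_mul, map_mul, mul_div_mul_left _ _ hs20]

end Pool.Agent.VF
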