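import Pool.Agent.helper51.VF.SpecA
import Pool.Agent.helper13.PC.ASA

/-!
# Project vf (MP_74cfa5_ag), row vf:WLF
-/

set_option autoImplicit false

namespace Pool.Agent.VF

open Pool.Agent.PC Pool.Agent.QS

universe u

theorem WLF_det {K : Type u} [Field K] {v : K → ℤ} (hv : DVal v) {n : ℕ}
    (M : Matrix (Fin n) (Fin n) K) (e : Fin n → ℤ) (h : ∀ i l, Ge v (e l) (M i l)) :
    Ge v (∑ l, e l) M.det := by
  classical
  rw [Matrix.det_apply]
  apply ASA_Gsum hv
  intro σ _
  have h1 : ∀ s : Finset (Fin n), Ge v (∑ i ∈ s, e i) (∏ i ∈ s, M (σ i) i) := by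
    intro s
    induction s using Finset.induction_on with
    | empty => right; rw [Finset.prod_empty, Finset.sum_empty, ASA_v1 hv]
    | insert a s ha ih =>
      rw [Finset.prod_insert ha, Finset.sum_insert ha]
      exact ASA_Gmul hv (h _ _) ih
  rcases Int.units_eq_one_or (Equiv.Perm.sign σ) with h2 | h2
  · rw [h2, one_smul]
    exact h1 Finset.univ
  · rw [h2, Units.neg_smul, one_smul]
    exact ASA_Gneg hv (h1 Finset.univ)

theorem WLF : WLF_stmt.{u} := by
  intro k F K _ _ _ _ _ _ _ p n D y v w j δ T Ψ hv hΨ hT hy hD hTv hl f hf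
  classical
  obtain ⟨l1, hl0, hl1⟩ := hl
  have hf' : ∀ i, algebraMap F K (f i) ≠ 0 := by
    intro i
    rw [Ne, map_eq_zero_iff _ (algebraMap F K).injective]
    exact hf i
  obtain ⟨e, he⟩ : ∃ e : Fin n → ℤ, ∀ l, e l = if l = l1 then (p : ℤ) * j else - w l :=
    ⟨_, fun _ => rfl⟩
  have hM : ∀ i l, Ge v (e l) ((algebraMap F K (f i))⁻¹ *
      (if l = l1 then T (f i) else D l (algebraMap F K (f i)))) := by
    intro i l
    have h2 : Ge v (-(v (algebraMap F K (f i)))) (algebraMap F K (f i))⁻¹ :=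
      Or.inr (by rw [ASA_inv hv (hf' i)])
    by_cases hll : l = l1
    · rw [if_pos hll, he l, if_pos hll]
      have h1 := hTv (v (algebraMap F K (f i))) (f i) (Or.inr le_rfl)
      have h3 := ASA_Gmul hv h2 h1
      rwa [neg_add_cancel_left] at h3
    · rw [if_neg hll, he l, if_neg hll]
      have h1 := hD l (algebraMap F K (f i)) (v (algebraMap F K (f i))) (Or.inr le_rfl)
      have h4 : Ge v (- w l) (y l)⁻¹ := Or.inr (by rw [ASA_inv hv (hy l).1, (hy l).2])
      have h5 := ASA_Gmul hv h4 h1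
      rw [inv_mul_cancel_left₀ (hy l).1] at h5
      have h3 := ASA_Gmul hv h2 h5
      have h6 : -v (algebraMap F K (f i)) + (-w l + v (algebraMap F K (f i))) = - w l := by ring
      rwa [h6] at h3
  have hdet := WLF_det hv (Matrix.of fun i l => (algebraMap F K (f i))⁻¹ *
      (if l = l1 then T (f i) else D l (algebraMap F K (f i)))) e hM
  have h1 := Matrix.det_mul_column (fun i => (algebraMap F K (f i))⁻¹)
      (Matrix.of fun i l => if l = l1 then T (f i) else D l (algebraMap F K (f i)))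
  simp only [Matrix.of_apply] at h1
  rw [h1] at hdet
  have hd : Ge v (-(w l1 + j)) (δ (y l1))⁻¹ := Or.inr (by rw [ASA_inv hv hl0, hl1])
  have h5 := ASA_Gmul hv hd hdet
  have hsum : ∑ l, e l = (p : ℤ) * j + w l1 - ∑ l, w l := by
    have h7 : ∀ l, e l = - w l + if l = l1 then (p : ℤ) * j + w l1 else 0 := by
      intro l
      rw [he l]
      by_cases hll : l = l1
      · rw [if_pos hll, if_pos hll, hll]; ring
      · rw [if_neg hll, if_neg hll]; ring
    rw [Finset.sum_congr rfl fun l _ => h7 l, Finset.sum_add_distrib, Finset.sum_ite_eq' Finset.univ l1,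
      if_pos (Finset.mem_univ _), Finset.sum_neg_distrib]
    ring
  rw [hsum] at h5
  have e2 : Ψ (dd k f) / ∏ i, algebraMap F K (f i) = (δ (y l1))⁻¹ *
      ((∏ i, (algebraMap F K (f i))⁻¹) * (Matrix.of fun i l =>
        if l = l1 then T (f i) else D l (algebraMap F K (f i))).det) := by
    rw [hΨ.1 T l1 hT hl0 f, JF, Finset.prod_inv_distrib, div_eq_mul_inv]
    ring
  rw [e2]
  have h8 : -(w l1 + j) + ((p : ℤ) * j + w l1 - ∑ l, w l) = ((p : ℤ) - 1) * j - ∑ l, w l := by ring
  rw [h8] at h5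
  exact h5

end Pool.Agent.VF
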